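import Pool.Agent.H998.AS.Two

/-!
# Asser's spectrum problem: all spectra from one local sentence and one connecting sentence

The definitions `Guarded`, `spec` are in `Pool/Agent/H998/AS/Defs.lean`; `Ex` (the language `L`
extended by a binary `E`, a unary `P`, and with the arity of each old symbol raised by one) and
`allE` are in `Pool/Agent/H998/AS/Sharp.lean`; `exactlyOne` is in `Pool/Agent/H998/AS/Two.lean`.
-/

set_option autoImplicit false

open FirstOrder Pool.Agent.H998.AS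

namespace Pool.Agent.Results.MP_8d783e_lc.ConnectedNormalForm

/-- the complement (in the positive integers) of the spectrum of `φ` is a spectrum -/
def ComplIsSpectrum {L : FirstOrder.Language.{0, 0}} (φ : L.Sentence) : Prop :=
  ∃ (L' : FirstOrder.Language.{0, 0}) (ψ : L'.Sentence),
    ∀ n : ℕ,
      (0 < n ∧ ∃ (M : Type) (_ : L'.Structure M), Nat.card M = n ∧ ψ.Realize M) ↔
        (0 < n ∧ ¬ ∃ (M : Type) (_ : L.Structure M), Nat.card M = n ∧ φ.Realize M)

/-- `χ` is a connecting sentence: it holds in all finite nonempty structures in which `E` holds for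
all pairs, and in every finite nonempty structure that satisfies `χ` any two elements are joined by
a path of `E`-edges (in either direction). -/
def Connecting {L : FirstOrder.Language.{0, 0}} (χ : (Ex L).Sentence) : Prop :=
  (∀ (M : Type) [Finite M] [Nonempty M] (s : (Ex L).Structure M),
    (∀ x y, s.RelMap (n := 2) (ExRel.E (L := L)) ![x, y]) →
      @FirstOrder.Language.Sentence.Realize (Ex L) M s χ) ∧
  (∀ (M : Type) [Finite M] [Nonempty M] (s : (Ex L).Structure M),
    @FirstOrder.Language.Sentence.Realize (Ex L) M s χ →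
      ∀ x y, Relation.EqvGen (fun x y => s.RelMap (n := 2) (ExRel.E (L := L)) ![x, y]) x y)

theorem connecting_allE (L : FirstOrder.Language.{0, 0}) [L.IsRelational] : Connecting (allE L) :=
  ⟨fun _ _ _ s h => (realize_allE s).2 h, fun _ _ _ s h x y =>
    Relation.EqvGen.rel _ _ ((realize_allE s).1 h x y)⟩

theorem compl_congr {L L' : FirstOrder.Language.{0, 0}} {φ : L.Sentence} {ψ : L'.Sentence}
    (h : spec φ = spec ψ) : ComplIsSpectrum φ → ComplIsSpectrum ψ := by
  rintro ⟨L₁, χ, hχ⟩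
  refine ⟨L₁, χ, fun n => (hχ n).trans ?_⟩
  have hn : n ∈ spec φ ↔ n ∈ spec ψ := by rw [h]
  constructor
  · rintro ⟨h0, hne⟩
    exact ⟨h0, fun hex => hne (hn.2 ⟨h0, hex⟩).2⟩
  · rintro ⟨h0, hne⟩
    exact ⟨h0, fun hex => hne (hn.1 ⟨h0, hex⟩).2⟩

theorem result :
    (∀ (L : FirstOrder.Language.{0, 0}) (φ : L.Sentence),
      ∃ (L₀ : FirstOrder.Language.{0, 0}) (_ : L₀.IsRelational),
        (∃ θ : (Ex L₀).BoundedFormula Empty 1, Guarded θ ∧
          ∀ χ : (Ex L₀).Sentence, Connecting χ → spec (χ ⊓ θ.all) = spec φ) ∧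
        (∃ θ : (Ex L₀).BoundedFormula Empty 1, Guarded θ ∧
          spec (exactlyOne L₀ ⊓ θ.all) = spec φ)) ∧
    ((∀ (L : FirstOrder.Language.{0, 0}) (φ : L.Sentence), ComplIsSpectrum φ) ↔
      ∀ (L : FirstOrder.Language.{0, 0}) [L.IsRelational] (θ : (Ex L).BoundedFormula Empty 1),
        Guarded θ → ComplIsSpectrum (allE L ⊓ θ.all)) ∧
    ((∀ (L : FirstOrder.Language.{0, 0}) (φ : L.Sentence), ComplIsSpectrum φ) ↔
      ∀ (L : FirstOrder.Language.{0, 0}) [L.IsRelational] (θ : (Ex L).BoundedFormula Empty 1),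
        Guarded θ → ComplIsSpectrum (exactlyOne L ⊓ θ.all)) := by
  have main : ∀ (L : FirstOrder.Language.{0, 0}) (φ : L.Sentence),
      ∃ (L₀ : FirstOrder.Language.{0, 0}) (_ : L₀.IsRelational),
        (∃ θ : (Ex L₀).BoundedFormula Empty 1, Guarded θ ∧
          ∀ χ : (Ex L₀).Sentence, Connecting χ → spec (χ ⊓ θ.all) = spec φ) ∧
        (∃ θ : (Ex L₀).BoundedFormula Empty 1, Guarded θ ∧
          spec (exactlyOne L₀ ⊓ θ.all) = spec φ) := by
    intro L φ
    refine ⟨LR L, inferInstance, ?_, ?_⟩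
    · obtain ⟨θ, hθ, h⟩ := nf_conn (AxF φ ⊓ (tau φ : (LR L).Sentence))
      refine ⟨θ, hθ, fun χ hχ => ?_⟩
      rw [h χ hχ.1 hχ.2, spec_elim]
    · obtain ⟨θ, hθ, h⟩ := nf_point (AxF φ ⊓ (tau φ : (LR L).Sentence))
      exact ⟨θ, hθ, by rw [h, spec_elim]⟩
  refine ⟨main, ⟨fun h L _ θ _ => h _ _, fun h L φ => ?_⟩, ⟨fun h L _ θ _ => h _ _, fun h L φ => ?_⟩⟩
  · obtain ⟨L₀, _, ⟨θ, hθ, hs⟩, _⟩ := main L φ
    exact compl_congr (hs (allE L₀) (connecting_allE L₀)) (h L₀ θ hθ)
  · obtain ⟨L₀, _, _, ⟨θ, hθ, hs⟩⟩ := main L φ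
    exact compl_congr hs (h L₀ θ hθ)

end Pool.Agent.Results.MP_8d783e_lc.ConnectedNormalForm
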