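import Pool.Agent.H998.AS.Prog
import Pool.Agent.H998.AS.Connd

/-!
# Asser's spectrum problem: sentences compatible with disjoint unions

The definitions `sumStr`, `HoldsAt`, `IsLocal`, `Guarded`, `OneWitness`, `SumPreserved`,
`SumSentence`, `spec`, `AddClosed` are in `Pool/Agent/H998/AS/Defs.lean`; `LG` (one binary relation
symbol) is in `Pool/Agent/H998/AS/Conv.lean`.
-/

set_option autoImplicit false

open FirstOrder Pool.Agent.H998.AS

namespace Pool.Agent.Results.MP_8d783e_lc.OneWitness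

/-- a finite union of additively closed sets of positive integers -/
def SumUnion (S : Set ℕ) : Prop :=
  ∃ (k : ℕ) (A : Fin k → Set ℕ), (∀ i, ∀ m ∈ A i, ∀ n ∈ A i, m + n ∈ A i) ∧
    (∀ i, ∀ n ∈ A i, 0 < n) ∧ S = ⋃ i, A i

theorem result :
    (∀ (L : FirstOrder.Language.{0, 0}) [L.IsRelational] (θ : L.BoundedFormula Empty 1),
      Guarded θ → IsLocal θ) ∧
    (∀ (L : FirstOrder.Language.{0, 0}) [L.IsRelational] (m : ℕ) (θ : L.BoundedFormula Empty m),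
      Guarded θ → SumPreserved θ.exs) ∧
    (∀ S : Set ℕ,
      ((∃ (L : FirstOrder.Language.{0, 0}) (_ : L.IsRelational) (φ : L.Sentence),
        SumSentence φ ∧ spec φ = S) ↔ SumUnion S) ∧
      ((∃ φ : LG.Sentence, OneWitness Guarded φ ∧ spec φ = S) ↔ SumUnion S)) ∧
    (∀ (L : FirstOrder.Language.{0, 0}) [L.IsRelational] (φ : L.Sentence), SumSentence φ →
      ∃ (L' : FirstOrder.Language.{0, 0}) (ψ : L'.Sentence),
        ∀ n : ℕ,
          (0 < n ∧ ∃ (M : Type) (_ : L'.Structure M), Nat.card M = n ∧ ψ.Realize M) ↔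
            (0 < n ∧ ¬ ∃ (M : Type) (_ : L.Structure M), Nat.card M = n ∧ φ.Realize M)) ∧
    (∃ φ : LG.Sentence, OneWitness Guarded φ ∧
      ∀ (L : FirstOrder.Language.{0, 0}) [L.IsRelational] (ψ : L.Sentence), SumSentence ψ →
        spec ψ ≠ {n | 0 < n ∧ n ∉ spec φ}) := by
  have hloc : ∀ (L : FirstOrder.Language.{0, 0}) [L.IsRelational] (θ : L.BoundedFormula Empty 1),
      Guarded θ → IsLocal θ := fun L _ θ h => h.isLocal
  have hsum : ∀ (L : FirstOrder.Language.{0, 0}) [L.IsRelational] (φ : L.Sentence), SumSentence φ →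
      SumUnion (spec φ) := by
    intro L _ φ h
    obtain ⟨k, A, hA, hpos, hs⟩ := spec_union' h
    exact ⟨k, A, hA, hpos, hs⟩
  have hconv : ∀ S : Set ℕ, SumUnion S → ∃ φ : LG.Sentence, OneWitness Guarded φ ∧ spec φ = S := by
    rintro S ⟨k, A, hA, hpos, rfl⟩
    exact conv A hA hpos
  have hG : ∀ φ : LG.Sentence, OneWitness Guarded φ → SumSentence φ := fun φ h =>
    SumSentence.one (h.mono fun θ hθ => hθ.isLocal)
  refine ⟨hloc, fun L _ m θ h => h.sumPreserved_exs, fun S => ⟨⟨?_, ?_⟩, ⟨?_, ?_⟩⟩, ?_, ?_⟩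
  · rintro ⟨L, hL, φ, hφ, rfl⟩
    exact hsum L φ hφ
  · intro hS
    obtain ⟨φ, hφ, hs⟩ := hconv S hS
    exact ⟨LG, inferInstance, φ, hG φ hφ, hs⟩
  · rintro ⟨φ, hφ, rfl⟩
    exact hsum LG φ (hG φ hφ)
  · exact hconv S
  · intro L _ φ h
    obtain ⟨k, A, hA, hpos, hs⟩ := spec_union' h
    have hUP : UP (spec φ) := by
      rw [hs]
      exact UP.iUnion A fun i => (hA i).up (hpos i)
    have hUP' : UP {n | 0 < n ∧ n ∉ spec φ} := by
      obtain ⟨N, M, hM, hp⟩ := hUP.compl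
      refine ⟨N + 1, M, hM, fun n hn => ?_⟩
      have := hp n (by omega)
      simp only [Set.mem_ofPred_eq] at this ⊢
      rw [this]
      constructor
      · rintro ⟨_, h⟩; exact ⟨by omega, h⟩
      · rintro ⟨_, h⟩; exact ⟨by omega, h⟩
    obtain ⟨ψ, hψ⟩ := UP.spectrum hUP' (fun n hn => hn.1)
    refine ⟨LA, ψ, fun n => ?_⟩
    have h1 : n ∈ spec ψ ↔ n ∈ {n | 0 < n ∧ n ∉ spec φ} := by rw [hψ]
    refine h1.trans ?_
    constructor
    · rintro ⟨hn, hns⟩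
      exact ⟨hn, fun hex => hns ⟨hn, hex⟩⟩
    · rintro ⟨hn, hns⟩
      exact ⟨hn, fun hex => hns hex.2⟩
  · obtain ⟨φ, hφ, hs⟩ := hconv {n | 0 < n ∧ 2 ∣ n} ⟨1, fun _ => {n | 0 < n ∧ 2 ∣ n},
      fun _ m hm n hn => ⟨by have := hm.1; omega, Nat.dvd_add hm.2 hn.2⟩, fun _ n hn => hn.1, by
        ext n; simp⟩
    refine ⟨φ, hφ, fun L _ ψ hψ heq => ?_⟩
    obtain ⟨k, A, hA, hpos, hsA⟩ := hsum L ψ hψ
    have h1 : (1 : ℕ) ∈ spec ψ := by
      rw [heq, hs]
      refine ⟨one_pos, ?_⟩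
      rintro ⟨_, h⟩
      omega
    rw [hsA, Set.mem_iUnion] at h1
    obtain ⟨i, hi⟩ := h1
    have h2 : (2 : ℕ) ∈ spec ψ := by
      rw [hsA, Set.mem_iUnion]
      exact ⟨i, hA i 1 hi 1 hi⟩
    rw [heq, hs] at h2
    exact h2.2 ⟨by omega, dvd_refl 2⟩

end Pool.Agent.Results.MP_8d783e_lc.OneWitness
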